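import Pool.Agent.Helper84_TMP.Stmt

/-!
# RAD: the radius of the points of norm at most `M`
-/

open scoped BigOperators

namespace Pool.Agent.TMP.H66

open Pool.Agent.DEN

section
variable {r : ℕ} {C : Matrix (Fin r) (Fin r) ℤ} {K : Type} [Field K]

/-- Cauchy and Schwarz for a root and a vector. -/
theorem ip_sq_le (hC : SimplyLaced C) (β : Rt C) (l : Fin r → ℤ) :
    (ip C β.1 l) ^ 2 ≤ 2 * ip C l l := by
  have h1 : 0 ≤ ip C ((2 : ℤ) • l - ip C β.1 l • β.1) ((2 : ℤ) • l - ip C β.1 l • β.1) := by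
    by_cases h : (2 : ℤ) • l - ip C β.1 l • β.1 = 0
    · rw [h, ip_zero_left]
    · exact (hC.ip_pos _ h).le
  rw [ip_sub_left, ip_sub_right, ip_sub_right, ip_smul_left, ip_smul_left, ip_smul_left,
    ip_smul_left, ip_smul_right, ip_smul_right, ip_smul_right, ip_smul_right,
    hC.ip_comm l β.1, β.2] at h1
  nlinarith [h1]

theorem bnd_tg (hC : SimplyLaced C) (l : Fin r → ℤ) (ρ : ℕ)
    (h : ∀ β : Rt C, ip C β.1 l ≤ ρ) : bnd ρ (tg hC K l) := by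
  have hF := H22.hF1 K
  intro v hv
  rw [isTor_tg hC l v]
  refine ⟨fun i => ?_, fun γ => ?_⟩
  · exact hF.2.2.2.2.1 0 (ρ : ℤ) _ (by positivity) (hv.1 i)
  · exact hF.2.2.2.2.1 _ _ _ (h γ) ((hF.2.2.2.2.2.2.2.1 _ _).mpr (hv.2 γ))

end

theorem rad : RadStmt := by
  intro r C hC K _ l ρ hρ k hk
  obtain ⟨-, hmul, hmax⟩ := H22.hBdg r C hC K
  obtain ⟨hk1, hk2⟩ := (hmax k).mp hk
  have h1 : ∀ β : Rt C, ip C β.1 l ≤ ρ ∧ - ip C β.1 l ≤ ρ := by
    intro β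
    have h2 := ip_sq_le hC β l
    have h3 : (ip C β.1 l) ^ 2 ≤ (ρ : ℤ) ^ 2 := le_trans h2 hρ
    have h4 := abs_le_of_sq_le_sq h3 (by positivity)
    constructor
    · linarith [le_abs_self (ip C β.1 l)]
    · linarith [neg_le_abs (ip C β.1 l)]
  constructor
  · have h2 := hmul 0 ρ k (tg hC K l) hk1 (bnd_tg hC l ρ fun β => (h1 β).1)
    rwa [zero_add] at h2
  · rw [mul_inv_rev, ← tg_neg]
    have h2 := hmul ρ 0 (tg hC K (-l)) k⁻¹
      (bnd_tg hC (-l) ρ fun β => by rw [ip_neg_right]; exact (h1 β).2) hk2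
    rwa [add_zero] at h2

end Pool.Agent.TMP.H66
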